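import Pool.Agent.Helper22.SI.Fin

/-!
# ES R3, second half: from few empty grid cells to the measure of the bad starting points
-/

open MeasureTheory Set Filter Topology
open Pool.Agent.Helper57.Zeta Pool.Agent.Helper57.PC Pool.Agent.Helper57.LH Pool.Agent.Helper78.SG
open Pool.Agent.Helper4.SH Pool.Agent.Helper22.SI
open Pool.Agent.Helper69.PP (CloseUpC)

namespace Pool.Agent.Helper38.ES

/-- the grid cell `j` of length `h` above `X` contains a zero with a close successor -/
def Gd (X h : ℝ) (j : ℕ) : Prop :=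
  ∃ ρ : ZS, X + j * h ≤ (ρ : ℂ).im ∧ (ρ : ℂ).im < X + (j + 1) * h ∧ CloseUpC (17 / 25) (2 * X) ρ

theorem closeUp_mono {c T T' : ℝ} (hT : 0 < T) (hTT : T ≤ T') {ρ : ZS} (h : CloseUpC c T' ρ) : CloseUpC c T ρ := by
  rcases h with h | ⟨ρ', h1, h2, h3⟩
  · exact Or.inl h
  · refine Or.inr ⟨ρ', h1, h2, le_trans ?_ h3⟩
    have := Real.log_le_log hT hTT
    have hpi : 0 < 2 * Real.pi := by positivity
    exact div_le_div_of_nonneg_right (mul_le_mul_of_nonneg_left this h2) hpi.le

theorem count_half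
    (disc_max : ∀ (Bad E : Finset ℕ),
      (∀ j ∈ E, ∃ n : ℕ, 1 ≤ n ∧ n ≤ 2 * (Bad.filter (fun i => j ≤ i ∧ i < j + n)).card) →
      E.card ≤ 2 * Bad.card)
    {X h : ℝ} (hX : 1 < X) (hh : 0 < h) (M : ℕ) (hM : 2 * X ≤ M * h) (Bad : Finset ℕ)
    (hBad : ∀ j < M, ¬ Gd X h j → j ∈ Bad) :
    volume {x : ℝ | x ∈ Icc X (2 * X) ∧ ∃ H : ℝ, 4 * h ≤ H ∧ H ≤ X ∧
      ∑ ρ ∈ UZ (17 / 25) x H, mx (ρ : ℂ) < H / (4 * h)} ≤ ENNReal.ofReal (2 * Bad.card * h) := by
  classical
  set E : Finset ℕ := (Finset.range (M + 1)).filter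
    (fun j => ∃ n : ℕ, 1 ≤ n ∧ n ≤ 2 * (Bad.filter (fun i => j ≤ i ∧ i < j + n)).card) with hE
  have hcard : E.card ≤ 2 * Bad.card := disc_max Bad E (fun j hj => (Finset.mem_filter.mp hj).2)
  have hsub : {x : ℝ | x ∈ Icc X (2 * X) ∧ ∃ H : ℝ, 4 * h ≤ H ∧ H ≤ X ∧
      ∑ ρ ∈ UZ (17 / 25) x H, mx (ρ : ℂ) < H / (4 * h)} ⊆
      ⋃ j ∈ E, Icc (X + (j - 1) * h) (X + j * h) := by
    rintro x ⟨hx, H, hH1, hH2, hH3⟩
    have hx0 : 0 < x := by linarith [hx.1]
    obtain ⟨k, hk⟩ : ∃ k : ℕ, k = ⌊(x - X) / h⌋₊ := ⟨_, rfl⟩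
    have hxX : 0 ≤ (x - X) / h := div_nonneg (by linarith [hx.1]) hh.le
    have hk1 : (k : ℝ) * h ≤ x - X := by
      rw [← le_div_iff₀ hh, hk]
      exact Nat.floor_le hxX
    have hk2 : x - X < (k + 1) * h := by
      rw [← div_lt_iff₀ hh, hk]
      exact Nat.lt_floor_add_one _
    obtain ⟨n, hn⟩ : ∃ n : ℕ, n = ⌊(x + H - X - (k + 1) * h) / h⌋₊ := ⟨_, rfl⟩
    have hn0 : 0 ≤ (x + H - X - (k + 1) * h) / h := div_nonneg (by nlinarith) hh.le
    have hn1 : (n : ℝ) * h ≤ x + H - X - (k + 1) * h := by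
      rw [← le_div_iff₀ hh, hn]
      exact Nat.floor_le hn0
    have hn2 : x + H - X - (k + 1) * h < (n + 1) * h := by
      rw [← div_lt_iff₀ hh, hn]
      exact Nat.lt_floor_add_one _
    have hnH : H / (2 * h) ≤ n := by
      rw [div_le_iff₀ (by positivity)]
      nlinarith
    have hn3 : 2 ≤ n := by
      have h1 : (2 : ℝ) ≤ H / (2 * h) := by
        rw [le_div_iff₀ (by positivity)]
        linarith
      exact_mod_cast h1.trans hnH
    have hMn : k + 1 + n ≤ M := by
      have h1 : ((k + 1 + n : ℕ) : ℝ) * h ≤ M * h := by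
        push_cast
        have := hx.2
        nlinarith
      have h2 := le_of_mul_le_mul_right h1 hh
      exact_mod_cast h2
    simp only [mem_iUnion]
    refine ⟨k + 1, ?_, ?_⟩
    · rw [hE, Finset.mem_filter, Finset.mem_range]
      refine ⟨by omega, n, by omega, ?_⟩
      by_contra hcon
      push Not at hcon
      set W := Finset.Ico (k + 1) (k + 1 + n) with hW
      set b := Bad.filter (fun i => k + 1 ≤ i ∧ i < k + 1 + n) with hb
      set G := W \ b with hG
      have hGcard : n ≤ 2 * G.card := by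
        have h1 : W.card - b.card ≤ G.card := Finset.le_card_sdiff _ _
        have h2 : W.card = n := by rw [hW, Nat.card_Ico]; omega
        omega
      have hGgood : ∀ j ∈ G, Gd X h j := by
        intro j hj
        by_contra hg
        rw [hG, Finset.mem_sdiff, hW, Finset.mem_Ico] at hj
        apply hj.2
        rw [hb, Finset.mem_filter]
        exact ⟨hBad j (by omega) hg, hj.1⟩
      obtain ⟨j0, hj0⟩ : G.Nonempty := Finset.card_pos.mp (by omega)
      have : Nonempty ZS := ⟨(hGgood j0 hj0).choose⟩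
      choose! P hP1 hP2 hP3 using hGgood
      have hmap : ∀ j ∈ G, P j ∈ UZ (17 / 25) x H := by
        intro j hj
        rw [mem_UZ hx0.le]
        have hj' := hj
        rw [hG, Finset.mem_sdiff, hW, Finset.mem_Ico] at hj'
        have j1 : ((k + 1 : ℕ) : ℝ) ≤ j := by exact_mod_cast hj'.1.1
        have j2 : ((j + 1 : ℕ) : ℝ) ≤ ((k + 1 + n : ℕ) : ℝ) := by exact_mod_cast hj'.1.2
        push_cast at j1 j2
        refine ⟨?_, ?_, closeUp_mono hx0 hx.2 (hP3 j hj)⟩
        · have := hP1 j hj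
          nlinarith
        · have := hP2 j hj
          nlinarith
      have hinj : Set.InjOn P (G : Set ℕ) := by
        have key : ∀ i ∈ G, ∀ j ∈ G, P i = P j → ¬ i < j := by
          intro i hi j hj hij hlt
          have h1 := hP2 i hi
          have h2 := hP1 j hj
          rw [hij] at h1
          have h3 : ((i + 1 : ℕ) : ℝ) ≤ j := by exact_mod_cast hlt
          push_cast at h3
          nlinarith
        intro i hi j hj hij
        have h1 := key i hi j hj hij
        have h2 := key j hj i hi hij.symm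
        omega
      have hsum : (G.card : ℝ) ≤ ∑ ρ ∈ UZ (17 / 25) x H, mx (ρ : ℂ) := by
        calc (G.card : ℝ) = ∑ j ∈ G, (1 : ℝ) := by simp
          _ ≤ ∑ j ∈ G, mx (P j : ℂ) := Finset.sum_le_sum fun j _ => mx_one_le (P j)
          _ = ∑ ρ ∈ G.image P, mx (ρ : ℂ) := (Finset.sum_image (f := fun ρ : ZS => mx (ρ : ℂ)) hinj).symm
          _ ≤ ∑ ρ ∈ UZ (17 / 25) x H, mx (ρ : ℂ) := by
              refine Finset.sum_le_sum_of_subset_of_nonneg ?_ fun ρ _ _ => mx_nonneg _
              intro ρ hρ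
              obtain ⟨j, hj, rfl⟩ := Finset.mem_image.mp hρ
              exact hmap j hj
      have h1 : (n : ℝ) ≤ 2 * G.card := by exact_mod_cast hGcard
      have h2 : H / (4 * h) = H / (2 * h) / 2 := by
        field_simp
        norm_num
      linarith
    · push_cast
      constructor <;> nlinarith [hx.1]
  refine (measure_mono hsub).trans ?_
  refine (measure_biUnion_finset_le _ _).trans ?_
  have h1 : ∀ j ∈ E, volume (Icc (X + ((j : ℝ) - 1) * h) (X + j * h)) = ENNReal.ofReal h := by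
    intro j _
    rw [Real.volume_Icc]
    congr 1
    ring
  rw [Finset.sum_congr rfl h1, Finset.sum_const, nsmul_eq_mul, ← ENNReal.ofReal_natCast, ← ENNReal.ofReal_mul (by positivity)]
  refine ENNReal.ofReal_le_ofReal ?_
  have h2 : (E.card : ℝ) ≤ 2 * Bad.card := by exact_mod_cast hcard
  exact mul_le_mul_of_nonneg_right h2 hh.le

end Pool.Agent.Helper38.ES
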