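import Pool.Agent.Helper69.ES.DefsR
import Pool.Agent.Helper38.ES.MeanSq

/-!
# ES L2r: the mean square of the smoothed sum, with a rate
-/

open MeasureTheory Set Filter Topology
open Pool.Agent.Helper57.Zeta Pool.Agent.Helper57.PC Pool.Agent.Helper57.LH Pool.Agent.Helper78.SG
open Pool.Agent.Helper4.SH
open Pool.Agent.Helper69.SM (wt wt_integrable wt_int gmvS)
open Pool.Agent.Helper69.ES

namespace Pool.Agent.Helper38.ES

open Classical in
theorem mean_sq_core {ι : Type} {F : ℝ → ℝ → ℝ} {S : ℝ → Finset ι} {c : ℝ → ι → ℝ} {a b : ι → ℕ} (g : TF) (hg : GoodG g)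
    (hr : Rep F S c a b) {θ0 A ε : ℝ} (hθ0 : 0 < θ0) (hθ1 : θ0 ≤ 1 / 16800) (hA : 0 ≤ A) (hε : 0 < ε)
    (hdg : ∀ᶠ x : ℝ in atTop, ∑ i ∈ S x, ∑ j ∈ S x,
      (if cnd θ0 x (a i) (b i) (a j) (b j) then |c x i| * |c x j| else 0) ≤ A) :
    ∀ h : TF, h.th ≤ θ0 → (∀ y, |h.h y| ≤ 1) → h.h 0 = 1 → ∀ᶠ x : ℝ in atTop,
      ∫ u, wt g.h x x u * (sm h F x u - ∑ i ∈ S x, if a i = b i then c x i else 0) ^ 2 ≤ (A / 2 + ε) * x := by
  obtain ⟨C, hC, hmv⟩ := gmvS g (δ := 1 / 8400) (by norm_num) 50400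
  intro h hth hh1 hh0
  filter_upwards [hr.rep, hr.mn, hr.ab, hdg, eventually_ge_atTop (2 : ℝ), eventually_ge_atTop (2 * C / ε)]
    with x hrep hmn hab hdgx hx2 hxC
  have hx1 : 1 < x := by linarith
  have hx0 : 0 < x := by linarith
  have hL : 0 < Real.log x := Real.log_pos hx1
  obtain ⟨θ, hθ⟩ : ∃ θ : ℝ, θ = θ0 := ⟨_, rfl⟩
  have hθl : θ ≤ 1 / 16800 := hθ ▸ hθ1
  rw [← hθ] at hth
  set S' : Finset ι := (S x).filter (fun i => a i ≠ b i ∧ |Real.log (a i) - Real.log (b i)| ≤ θ * Real.log x) with hS'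
  set d : ι → ℝ := fun i => c x i * h.h ((Real.log (a i) - Real.log (b i)) / Real.log x) with hd
  have hdc : ∀ i, |d i| ≤ |c x i| := by
    intro i
    rw [hd]
    simp only
    rw [abs_mul]
    exact mul_le_of_le_one_right (abs_nonneg _) (hh1 _)
  set ν : ι → ℝ := fun i => Real.log (a i) - Real.log (b i) with hν
  -- the difference
  have e1 : ∀ u, sm h F x u - (∑ i ∈ S x, if a i = b i then c x i else 0) = ∑ i ∈ S', d i * Real.cos (u * ν i) := by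
    intro u
    rw [sm_eq h hx1 (S x) (c x) a b hrep u, ← Finset.sum_sub_distrib, hS', Finset.sum_filter]
    refine Finset.sum_congr rfl fun i _ => ?_
    by_cases h1 : a i = b i
    · rw [if_pos h1, if_neg (fun hc => hc.1 h1)]
      have e0 : Real.log (a i) - Real.log (b i) = 0 := by rw [h1, sub_self]
      rw [e0, zero_div, hh0, mul_zero, Real.cos_zero]
      ring
    · rw [if_neg h1, sub_zero]
      by_cases h2 : |Real.log (a i) - Real.log (b i)| ≤ θ * Real.log x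
      · rw [if_pos ⟨h1, h2⟩]
      · rw [if_neg (fun hc => h2 hc.2)]
        have : h.h ((Real.log (a i) - Real.log (b i)) / Real.log x) = 0 := by
          apply h.supp
          rw [abs_div, abs_of_pos hL, le_div_iff₀ hL]
          push Not at h2
          exact (mul_le_mul_of_nonneg_right hth hL.le).trans h2.le
        rw [this]
        ring
  -- the square
  have e2 : ∀ u, (∑ i ∈ S', d i * Real.cos (u * ν i)) ^ 2 =
      (∑ p ∈ S' ×ˢ S', (d p.1 * d p.2 / 2) * Real.cos (u * (Real.log ((a p.1 * a p.2 : ℕ) : ℝ) - Real.log ((b p.1 * b p.2 : ℕ) : ℝ)))) +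
      (∑ p ∈ S' ×ˢ S', (d p.1 * d p.2 / 2) * Real.cos (u * (Real.log ((a p.1 * b p.2 : ℕ) : ℝ) - Real.log ((b p.1 * a p.2 : ℕ) : ℝ)))) := by
    intro u
    rw [pow_two, Finset.sum_mul_sum, ← Finset.sum_product', ← Finset.sum_add_distrib]
    refine Finset.sum_congr rfl fun p hp => ?_
    rw [Finset.mem_product, hS', Finset.mem_filter, Finset.mem_filter] at hp
    obtain ⟨a1, b1, -⟩ := hmn p.1 hp.1.1
    obtain ⟨a2, b2, -⟩ := hmn p.2 hp.2.1
    have a1' : ((a p.1 : ℕ) : ℝ) ≠ 0 := by exact_mod_cast (by omega : a p.1 ≠ 0)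
    have b1' : ((b p.1 : ℕ) : ℝ) ≠ 0 := by exact_mod_cast (by omega : b p.1 ≠ 0)
    have a2' : ((a p.2 : ℕ) : ℝ) ≠ 0 := by exact_mod_cast (by omega : a p.2 ≠ 0)
    have b2' : ((b p.2 : ℕ) : ℝ) ≠ 0 := by exact_mod_cast (by omega : b p.2 ≠ 0)
    push_cast
    rw [Real.log_mul a1' a2', Real.log_mul b1' b2', Real.log_mul a1' b2', Real.log_mul b1' a2']
    have c1 : u * (Real.log (a p.1) + Real.log (a p.2) - (Real.log (b p.1) + Real.log (b p.2))) = u * ν p.1 + u * ν p.2 := by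
      rw [hν]; ring
    have c2 : u * (Real.log (a p.1) + Real.log (b p.2) - (Real.log (b p.1) + Real.log (a p.2))) = u * ν p.1 - u * ν p.2 := by
      rw [hν]; ring
    rw [c1, c2, Real.cos_add, Real.cos_sub]
    ring
  have hwi := wt_integrable g x hx0
  -- integrability
  have hint : ∀ (w : ι × ι → ℝ) (v : ι × ι → ℝ), Integrable (fun u => wt g.h x x u * ∑ p ∈ S' ×ˢ S', w p * Real.cos (u * v p)) := by
    intro w v
    refine hwi.mul_bdd (c := ∑ p ∈ S' ×ˢ S', |w p|) ?_ ?_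
    · refine Continuous.aestronglyMeasurable ?_
      fun_prop
    · refine Eventually.of_forall fun t => ?_
      rw [Real.norm_eq_abs]
      refine (Finset.abs_sum_le_sum_abs _ _).trans (Finset.sum_le_sum fun p _ => ?_)
      rw [abs_mul]
      exact mul_le_of_le_one_right (abs_nonneg _) (Real.abs_cos_le_one _)
  have e3 : ∫ u, wt g.h x x u * (sm h F x u - ∑ i ∈ S x, if a i = b i then c x i else 0) ^ 2 =
      (∫ u, wt g.h x x u * ∑ p ∈ S' ×ˢ S', (d p.1 * d p.2 / 2) * Real.cos (u * (Real.log ((a p.1 * a p.2 : ℕ) : ℝ) - Real.log ((b p.1 * b p.2 : ℕ) : ℝ)))) +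
      ∫ u, wt g.h x x u * ∑ p ∈ S' ×ˢ S', (d p.1 * d p.2 / 2) * Real.cos (u * (Real.log ((a p.1 * b p.2 : ℕ) : ℝ) - Real.log ((b p.1 * a p.2 : ℕ) : ℝ))) := by
    rw [← integral_add (hint _ _) (hint _ _)]
    refine integral_congr_ae (Eventually.of_forall fun u => ?_)
    simp only
    rw [e1 u, e2 u, mul_add]
  -- sizes
  have hsz : ∀ i ∈ S', 1 ≤ a i ∧ 1 ≤ b i ∧ (a i : ℝ) ≤ x ^ ((1 : ℝ) / 2 - 1 / 8400 + θ) ∧ (b i : ℝ) ≤ x ^ ((1 : ℝ) / 2 - 1 / 8400 + θ) := by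
    intro i hi
    rw [hS', Finset.mem_filter] at hi
    obtain ⟨h1, h2, h3⟩ := hmn i hi.1
    have h4 := nat_le_of hx1 h1 h2 h3 hi.2.2
    exact ⟨h1, h2, h4.1, h4.2⟩
  have hprod : ∀ m n : ℕ, (m : ℝ) ≤ x ^ ((1 : ℝ) / 2 - 1 / 8400 + θ) → (n : ℝ) ≤ x ^ ((1 : ℝ) / 2 - 1 / 8400 + θ) →
      ((m * n : ℕ) : ℝ) ≤ x ^ ((1 : ℝ) - 1 / 8400) := by
    intro m n hm hn
    push_cast
    calc (m : ℝ) * n ≤ x ^ ((1 : ℝ) / 2 - 1 / 8400 + θ) * x ^ ((1 : ℝ) / 2 - 1 / 8400 + θ) :=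
          mul_le_mul hm hn (by positivity) (by positivity)
      _ = x ^ (((1 : ℝ) / 2 - 1 / 8400 + θ) + ((1 : ℝ) / 2 - 1 / 8400 + θ)) := (Real.rpow_add hx0 _ _).symm
      _ ≤ x ^ ((1 : ℝ) - 1 / 8400) := Real.rpow_le_rpow_of_exponent_le hx1.le (by linarith)
  have hsum : ∑ p ∈ S' ×ˢ S', |d p.1 * d p.2 / 2| ≤ x ^ (4 : ℝ) / 2 := by
    have h1 : ∑ p ∈ S' ×ˢ S', |d p.1 * d p.2 / 2| = (∑ i ∈ S', |d i|) * (∑ j ∈ S', |d j|) / 2 := by
      rw [Finset.sum_mul_sum, ← Finset.sum_product', Finset.sum_div]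
      refine Finset.sum_congr rfl fun p _ => ?_
      rw [abs_div, abs_mul, abs_two]
    have h2 : ∑ i ∈ S', |d i| ≤ x ^ (2 : ℝ) := by
      refine le_trans ?_ hab
      refine (Finset.sum_le_sum fun i _ => hdc i).trans ?_
      exact Finset.sum_le_sum_of_subset_of_nonneg (Finset.filter_subset _ _) fun i _ _ => abs_nonneg _
    have h3 : (0 : ℝ) ≤ ∑ i ∈ S', |d i| := Finset.sum_nonneg fun i _ => abs_nonneg _
    rw [h1]
    refine div_le_div_of_nonneg_right ?_ (by norm_num)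
    calc (∑ i ∈ S', |d i|) * (∑ j ∈ S', |d j|) ≤ x ^ (2 : ℝ) * x ^ (2 : ℝ) := mul_le_mul h2 h2 h3 (by positivity)
      _ = x ^ (4 : ℝ) := by rw [← Real.rpow_add hx0]; norm_num
  have herr : C * x ^ ((1 : ℝ) - 1 / 8400 * (50400 : ℕ)) * ∑ p ∈ S' ×ˢ S', |d p.1 * d p.2 / 2| ≤ ε * x / 4 := by
    have h1 : C * x ^ ((1 : ℝ) - 1 / 8400 * (50400 : ℕ)) * ∑ p ∈ S' ×ˢ S', |d p.1 * d p.2 / 2| ≤
        C * x ^ ((1 : ℝ) - 1 / 8400 * (50400 : ℕ)) * (x ^ (4 : ℝ) / 2) :=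
      mul_le_mul_of_nonneg_left hsum (by positivity)
    have h2 : x ^ ((1 : ℝ) - 1 / 8400 * (50400 : ℕ)) * x ^ (4 : ℝ) = x ^ (-1 : ℝ) := by
      rw [← Real.rpow_add hx0]
      congr 1
      push_cast
      norm_num
    have h3 : x ^ (-1 : ℝ) ≤ 1 := Real.rpow_le_one_of_one_le_of_nonpos hx1.le (by norm_num)
    have h4 : C ≤ ε * x / 2 := by
      rw [div_le_iff₀ hε] at hxC
      linarith
    calc _ ≤ C * x ^ ((1 : ℝ) - 1 / 8400 * (50400 : ℕ)) * (x ^ (4 : ℝ) / 2) := h1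
      _ = C / 2 * (x ^ ((1 : ℝ) - 1 / 8400 * (50400 : ℕ)) * x ^ (4 : ℝ)) := by ring
      _ = C / 2 * x ^ (-1 : ℝ) := by rw [h2]
      _ ≤ C / 2 * 1 := mul_le_mul_of_nonneg_left h3 (by positivity)
      _ ≤ ε * x / 4 := by linarith
  obtain ⟨hg0, hg1⟩ := int_good hg
  have m1 := hmv x x hx1.le (ι × ι) (S' ×ˢ S') (fun p => d p.1 * d p.2 / 2) (fun p => a p.1 * a p.2) (fun p => b p.1 * b p.2)
    (by
      intro p hp
      rw [Finset.mem_product] at hp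
      obtain ⟨h1, h2, h3, h4⟩ := hsz _ hp.1
      obtain ⟨h5, h6, h7, h8⟩ := hsz _ hp.2
      refine ⟨Nat.mul_pos h1 h5, Nat.mul_pos h2 h6, ?_⟩
      refine le_trans ?_ (hprod _ _ h3 h7)
      exact_mod_cast min_le_left _ _)
  have m2 := hmv x x hx1.le (ι × ι) (S' ×ˢ S') (fun p => d p.1 * d p.2 / 2) (fun p => a p.1 * b p.2) (fun p => b p.1 * a p.2)
    (by
      intro p hp
      rw [Finset.mem_product] at hp
      obtain ⟨h1, h2, h3, h4⟩ := hsz _ hp.1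
      obtain ⟨h5, h6, h7, h8⟩ := hsz _ hp.2
      refine ⟨Nat.mul_pos h1 h6, Nat.mul_pos h2 h5, ?_⟩
      refine le_trans ?_ (hprod _ _ h3 h8)
      exact_mod_cast min_le_left _ _)
  have d1 := diag_le (S x) (c x) d a b θ θ0 x hθ.le hL.le hdc (fun i j => a i * a j = b i * b j)
    (fun i j h => Or.inl h)
  have d2 := diag_le (S x) (c x) d a b θ θ0 x hθ.le hL.le hdc (fun i j => a i * b j = b i * a j)
    (fun i j h => Or.inr h)
  rw [← hS'] at d1 d2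

  have hdiag : ∀ D : ℝ, |D| ≤ (∑ i ∈ S x, ∑ j ∈ S x, (if cnd θ0 x (a i) (b i) (a j) (b j) then |c x i| * |c x j| else 0)) / 2 →
      x * (∫ y, g.h y) * D ≤ A * x / 4 := by
    intro D hD
    have h1 : D ≤ A / 2 := (le_abs_self D).trans (hD.trans (div_le_div_of_nonneg_right hdgx (by norm_num)))
    calc x * (∫ y, g.h y) * D ≤ x * (∫ y, g.h y) * (A / 2) := mul_le_mul_of_nonneg_left h1 (by positivity)
      _ ≤ x * (1 / 2) * (A / 2) := by
          refine mul_le_mul_of_nonneg_right ?_ (by positivity)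
          exact mul_le_mul_of_nonneg_left hg1 hx0.le
      _ = A * x / 4 := by ring
  have f1 := hdiag _ d1
  have f2 := hdiag _ d2
  have g1 := (abs_le.mp m1).2
  have g2 := (abs_le.mp m2).2
  rw [e3]
  have k1 : (∫ u, wt g.h x x u * ∑ p ∈ S' ×ˢ S', (d p.1 * d p.2 / 2) * Real.cos (u * (Real.log ((a p.1 * a p.2 : ℕ) : ℝ) - Real.log ((b p.1 * b p.2 : ℕ) : ℝ)))) ≤
      A * x / 4 + ε * x / 4 := by linarith
  have k2 : (∫ u, wt g.h x x u * ∑ p ∈ S' ×ˢ S', (d p.1 * d p.2 / 2) * Real.cos (u * (Real.log ((a p.1 * b p.2 : ℕ) : ℝ) - Real.log ((b p.1 * a p.2 : ℕ) : ℝ)))) ≤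
      A * x / 4 + ε * x / 4 := by linarith
  have hεx : 0 ≤ ε * x := by positivity
  linarith

theorem mean_sq_rate {ι : Type} {F : ℝ → ℝ → ℝ} {S : ℝ → Finset ι} {c : ℝ → ι → ℝ} {a b : ι → ℕ} (g : TF) (hg : GoodG g)
    (hr : Rep F S c a b) (hd : Dgr S c a b) :
    ∃ C θ0 : ℝ, 0 < C ∧ 0 < θ0 ∧ ∀ θ : ℝ, 0 < θ → θ ≤ θ0 → ∀ h : TF, h.th ≤ θ → (∀ y, |h.h y| ≤ 1) → h.h 0 = 1 →
      ∀ᶠ x : ℝ in atTop,
      ∫ u, wt g.h x x u * (sm h F x u - ∑ i ∈ S x, if a i = b i then c x i else 0) ^ 2 ≤ C * θ * x := by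
  obtain ⟨C, hC, h1⟩ := hd
  refine ⟨2 * C, 1 / 16800, by positivity, by norm_num, fun θ hθ hθ0 h hth hh1 hh0 => ?_⟩
  have h2 := mean_sq_core g hg hr hθ hθ0 (A := C * θ) (ε := C * θ) (by positivity) (by positivity)
    (h1 θ hθ (by linarith)) h hth hh1 hh0
  filter_upwards [h2, eventually_gt_atTop (0 : ℝ)] with x hx hx0
  refine hx.trans ?_
  have : 0 ≤ C * θ * x := by positivity
  nlinarith

end Pool.Agent.Helper38.ES
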